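import Pool.Agent.W645.WV.Stm
import Pool.Agent.W203.BE.Ext

set_option autoImplicit false

open MeasureTheory Set Complex
open scoped ENNReal

namespace Pool.Agent.W481.WV

open Pool.Agent.W645.WV Pool.Agent.W203.BE

theorem ft_dil {n : ℕ} (c : Fin n → ℝ) (hc : ∀ j, 0 < c j) (u : (Fin n → ℝ) → ℂ)
    (η : Fin n → ℝ) :
    ((∏ j, c j : ℝ) : ℂ) * FT (fun y => u (fun j => c j * y j)) (fun j => c j * η j) = FT u η := by
  unfold FT
  rw [integral_dil c hc (fun y => cexp (-(2 * (Real.pi : ℂ) * I * ((∑ j, y j * η j : ℝ) : ℂ))) * u y)]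
  congr 1
  refine integral_congr_ae (Filter.Eventually.of_forall fun y => ?_)
  have e1 : (∑ j, (dil c hc y) j * η j) = ∑ j, y j * (c j * η j) := by
    refine Finset.sum_congr rfl fun j _ => ?_
    rw [dil_apply]
    ring
  have e2 : dil c hc y = fun j => c j * y j := by
    funext j
    rw [dil_apply]
  simp only [e1]
  rw [e2]

theorem t_DIL : S_DIL := by
  intro n u₀ u₁ a ha t x
  set c : Fin n → ℝ := fun j => Real.sqrt (a j) with hcdef
  have hc : ∀ j, 0 < c j := fun j => Real.sqrt_pos.2 (ha j)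
  have hcc : ∀ j, c j ^ 2 = a j := fun j => Real.sq_sqrt (ha j).le
  show W (fun y => u₀ (fun j => c j * y j)) (fun y => u₁ (fun j => c j * y j)) (fun _ => 1) t x =
    W u₀ u₁ a t (fun j => c j * x j)
  unfold W IFT
  rw [integral_dil c hc, ← integral_const_mul]
  refine integral_congr_ae (Filter.Eventually.of_forall fun η => ?_)
  have e0 : dil c hc η = fun j => c j * η j := by
    funext j
    rw [dil_apply]
  have e1 : H (fun _ => (1 : ℝ)) (fun j => c j * η j) = H a η := by
    unfold H
    refine Finset.sum_congr rfl fun j _ => ?_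
    rw [mul_pow, hcc]
    ring
  have e2 : (∑ j, x j * (c j * η j)) = ∑ j, (c j * x j) * η j :=
    Finset.sum_congr rfl fun j _ => by ring
  simp only [e0]
  rw [e1, e2, ← ft_dil c hc u₀ η, ← ft_dil c hc u₁ η]
  ring

end Pool.Agent.W481.WV

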